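import Pool.Agent.Helper94.LU.Gv

/-!
PROJECT LU (LT2, MP_274814_nt), block Z2: the dimension of the spaces of theta functions of the vector extension.
-/

namespace Pool.Agent.Helper94.LU

open Finset Pool.Agent.Helper34.LT Pool.Agent.Helper63.LT Pool.Agent.Helper63.LU
  Pool.Agent.Helper35.LZ

noncomputable section

/-! ### Linear algebra -/

theorem dim_inj (V W : Type) [AddCommGroup V] [Module ℂ V] [AddCommGroup W] [Module ℂ W]
    [Module.Finite ℂ W] (j : V →ₗ[ℂ] W) (hj : Function.Injective j) :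
    Module.Finite ℂ V ∧ Module.finrank ℂ V ≤ Module.finrank ℂ W :=
  ⟨Module.Finite.of_injective j hj, LinearMap.finrank_le_finrank_of_injective hj⟩

theorem dim_step {E : Type} [AddCommGroup E] [Module ℂ E] (W₀ W₁ Y : Submodule ℂ E)
    {κ : Type} [Fintype κ] (f : κ → E →ₗ[ℂ] E) (hf : ∀ s, ∀ x ∈ W₁, f s x ∈ Y)
    (hk : ∀ x ∈ W₁, (∀ s, f s x = 0) → x ∈ W₀) [Module.Finite ℂ W₀] [Module.Finite ℂ Y] :
    Module.Finite ℂ W₁ ∧
      Module.finrank ℂ W₁ ≤ Module.finrank ℂ W₀ + Fintype.card κ * Module.finrank ℂ Y := by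
  let g : W₁ →ₗ[ℂ] (κ → Y) :=
    LinearMap.pi fun s => ((f s).comp W₁.subtype).codRestrict Y (fun x => hf s x x.2)
  have hg : ∀ x : W₁, g x = 0 → ∀ s, f s x = 0 := fun x hx s =>
    congrArg Subtype.val (congrFun hx s)
  let j : LinearMap.ker g →ₗ[ℂ] W₀ :=
    (W₁.subtype.comp (LinearMap.ker g).subtype).codRestrict W₀
      (fun x => hk x.1 x.1.2 (hg x.1 (LinearMap.mem_ker.1 x.2)))
  have hj : Function.Injective j := fun x y h => by
    have h' : (x.1.1 : E) = y.1.1 := congrArg (fun t : W₀ => (t : E)) h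
    exact Subtype.ext (Subtype.ext h')
  have h1 : Module.Finite ℂ (LinearMap.ker g) := Module.Finite.of_injective j hj
  have h2 : Module.Finite ℂ W₁ := by
    refine ⟨Submodule.fg_of_fg_map_of_fg_inf_ker g ?_ ?_⟩
    · exact (Module.Finite.iff_fg.1 (inferInstance : Module.Finite ℂ ((⊤ : Submodule ℂ W₁).map g)))
    · rw [top_inf_eq]
      exact Module.Finite.iff_fg.1 h1
  refine ⟨h2, ?_⟩
  have h3 := LinearMap.finrank_range_add_finrank_ker g
  have h4 : Module.finrank ℂ (LinearMap.range g) ≤ Fintype.card κ * Module.finrank ℂ Y := by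
    have h5 := Submodule.finrank_le (LinearMap.range g)
    rwa [Module.finrank_pi_fintype, Finset.sum_const, Finset.card_univ, smul_eq_mul] at h5
  have h5 : Module.finrank ℂ (LinearMap.ker g) ≤ Module.finrank ℂ W₀ :=
    LinearMap.finrank_le_finrank_of_injective hj
  omega

open scoped Classical in
theorem card_deg (ι : Type) [Fintype ι] (n : ℕ) :
    ∑ j ∈ range n, ((univ : Finset ι).finsuppAntidiag j).card ≤ n ^ Fintype.card ι := by
  rw [← Finset.card_sigma]
  have h1 : (Fintype.piFinset fun _ : ι => range n).card = n ^ Fintype.card ι := by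
    rw [Fintype.card_piFinset, Finset.prod_const, Finset.card_range, Finset.card_univ]
  rw [← h1]
  refine Finset.card_le_card_of_injOn (fun x i => x.2 i) ?_ ?_
  · rintro ⟨j, b⟩ hx
    rw [Finset.mem_coe, Finset.mem_sigma, mem_finsuppAntidiag, Finset.mem_range] at hx
    rw [Finset.mem_coe, Fintype.mem_piFinset]
    intro i
    rw [Finset.mem_range]
    have h2 : b i ≤ ∑ i, b i :=
      Finset.single_le_sum (f := fun i => b i) (fun i _ => Nat.zero_le _) (Finset.mem_univ i)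
    have h3 := hx.2.1
    have h4 := hx.1
    simp only at h3 h4 ⊢
    omega
  · rintro ⟨j, b⟩ hx ⟨j', b'⟩ hx' h
    rw [Finset.mem_coe, Finset.mem_sigma, mem_finsuppAntidiag] at hx hx'
    have h2 : b = b' := Finsupp.ext fun i => congrFun h i
    have h3 := hx.2.1
    have h4 := hx'.2.1
    simp only at h3 h4
    subst h2
    have h5 : j = j' := h3.symm.trans h4
    subst h5
    rfl

/-! ### Derivatives of polynomials -/

theorem tdeg_pderiv {ι : Type} {P : MvPolynomial ι ℂ} {n : ℕ} (hP : P.totalDegree ≤ n + 1) (i : ι) :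
    (MvPolynomial.pderiv i P).totalDegree ≤ n := by
  rw [P.as_sum, map_sum]
  refine MvPolynomial.totalDegree_finsetSum_le fun s hs => ?_
  rw [MvPolynomial.pderiv_monomial]
  by_cases h : s i = 0
  · rw [h, Nat.cast_zero, mul_zero, map_zero, MvPolynomial.totalDegree_zero]
    exact Nat.zero_le _
  · refine (MvPolynomial.totalDegree_monomial_le _ _).trans ?_
    have h1 : s.degree ≤ n + 1 := (MvPolynomial.le_totalDegree hs).trans hP
    have h2 : (s - Finsupp.single i 1) + Finsupp.single i 1 = s := by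
      refine tsub_add_cancel_of_le ?_
      rw [Finsupp.single_le_iff]
      omega
    have h3 := congrArg Finsupp.degree h2
    rw [map_add, Finsupp.degree_single] at h3
    change (s - Finsupp.single i 1).degree ≤ n
    omega

theorem tdeg_zero {ι : Type} {P : MvPolynomial ι ℂ} (hP : P.totalDegree ≤ 0) (i : ι) :
    MvPolynomial.pderiv i P = 0 := by
  rw [MvPolynomial.totalDegree_eq_zero_iff_eq_C.1 (Nat.le_zero.1 hP), MvPolynomial.pderiv_C]

open scoped Classical in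
theorem deriv_eval {ι : Type} [Fintype ι] (P : MvPolynomial ι ℂ) (w : ι → ℂ) (i : ι) :
    HasDerivAt (fun t : ℂ => MvPolynomial.eval (w + t • (Pi.single i 1 : ι → ℂ)) P)
      (MvPolynomial.eval w (MvPolynomial.pderiv i P)) 0 := by
  induction P using MvPolynomial.induction_on with
  | C a =>
    simp only [MvPolynomial.eval_C, MvPolynomial.pderiv_C, map_zero]
    exact hasDerivAt_const _ _
  | add p q hp hq =>
    simp only [map_add]
    exact hp.add hq
  | mul_X p j hp =>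
    have h1 : HasDerivAt (fun t : ℂ => MvPolynomial.eval (w + t • (Pi.single i 1 : ι → ℂ))
        (MvPolynomial.X j : MvPolynomial ι ℂ)) (Pi.single (M := fun _ => ℂ) i 1 j) 0 := by
      simp only [MvPolynomial.eval_X, Pi.add_apply, Pi.smul_apply, smul_eq_mul]
      have h2 := ((hasDerivAt_id (0 : ℂ)).mul_const (Pi.single (M := fun _ => ℂ) i 1 j)).const_add
        (w j)
      rwa [one_mul] at h2
    have h2 := hp.mul h1
    have h3 : MvPolynomial.eval w (MvPolynomial.pderiv i (p * MvPolynomial.X j)) =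
        MvPolynomial.eval w (MvPolynomial.pderiv i p) *
          MvPolynomial.eval (w + (0 : ℂ) • (Pi.single i 1 : ι → ℂ)) (MvPolynomial.X j) +
        MvPolynomial.eval (w + (0 : ℂ) • (Pi.single i 1 : ι → ℂ)) p *
          (Pi.single (M := fun _ => ℂ) i 1 j) := by
      rw [zero_smul, add_zero, MvPolynomial.pderiv_mul, map_add, map_mul, map_mul,
        MvPolynomial.pderiv_X]
      congr 2
      by_cases hij : j = i
      · subst hij
        rw [Pi.single_eq_same, Pi.single_eq_same, map_one]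
      · rw [Pi.single_eq_of_ne hij, Pi.single_eq_of_ne hij, map_zero]
    have h4 : (fun t : ℂ => MvPolynomial.eval (w + t • (Pi.single i 1 : ι → ℂ))
        (p * MvPolynomial.X j)) =
        (fun t : ℂ => MvPolynomial.eval (w + t • (Pi.single i 1 : ι → ℂ)) p) *
          fun t : ℂ => MvPolynomial.eval (w + t • (Pi.single i 1 : ι → ℂ))
            (MvPolynomial.X j : MvPolynomial ι ℂ) := by
      funext t
      rw [Pi.mul_apply, map_mul]
    rw [h3, h4]
    exact h2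

/-! ### Vertical derivatives -/

section vert

variable {ι A : Type} [Fintype ι] [AddCommGroup A]

open scoped Classical in
/-- The vertical directions. -/
def vd (i : ι) : ι ⊕ ι → ℂ := Sum.elim 0 (Pi.single i 1)

/-- The vertical derivations. -/
def dR (ι : Type) [Fintype ι] : CD ι (Ent (ι ⊕ ι)) where
  D i := dE (vd i)
  comm i j F := dE_comm (vd i) (vd j) F

theorem line (F : Ent (ι ⊕ ι)) (z v : ι ⊕ ι → ℂ) :
    HasDerivAt (fun t : ℂ => (F : (ι ⊕ ι → ℂ) → ℂ) (z + t • v))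
      ((dE v F : (ι ⊕ ι → ℂ) → ℂ) z) 0 :=
  (F.2 z).hasFDerivAt.hasLineDerivAt v

/-- The degree in the vector variables is less than `n`. -/
def Vn (ι : Type) [Fintype ι] (n : ℕ) : Submodule ℂ (Ent (ι ⊕ ι)) where
  carrier := {F | ∀ b : ι →₀ ℕ, b.degree = n → (dR ι).pw b F = 0}
  add_mem' := by
    intro F G hF hG b hb
    rw [map_add, hF b hb, hG b hb, add_zero]
  zero_mem' := by
    intro b _
    rw [map_zero]
  smul_mem' := by
    intro c F hF b hb
    rw [map_smul, hF b hb, smul_zero]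

theorem mem_Vn {n : ℕ} {F : Ent (ι ⊕ ι)} :
    F ∈ Vn ι n ↔ ∀ b : ι →₀ ℕ, b.degree = n → (dR ι).pw b F = 0 := Iff.rfl

theorem exists_single {n : ℕ} {b : ι →₀ ℕ} (hb : b.degree = n + 1) :
    ∃ (i : ι) (b' : ι →₀ ℕ), b = b' + Finsupp.single i 1 ∧ b'.degree = n := by
  obtain ⟨i, hi⟩ : ∃ i, b i ≠ 0 := by
    by_contra hcon
    push Not at hcon
    rw [Finsupp.degree_eq_sum, Finset.sum_eq_zero fun i _ => hcon i] at hb
    omega
  have h2 : (b - Finsupp.single i 1) + Finsupp.single i 1 = b := by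
    refine tsub_add_cancel_of_le ?_
    rw [Finsupp.single_le_iff]
    omega
  refine ⟨i, b - Finsupp.single i 1, h2.symm, ?_⟩
  have h3 := congrArg Finsupp.degree h2
  rw [map_add, Finsupp.degree_single, hb] at h3
  omega

theorem vn_zero {F : Ent (ι ⊕ ι)} (hF : F ∈ Vn ι 0) : F = 0 := by
  have h := hF 0 (map_zero _)
  rwa [CD.pw_zero] at h

/-- A polynomial of degree at most `L` in the vector variables. -/
theorem poly_vn (L : ℕ) : ∀ F : Ent (ι ⊕ ι), (∀ z : ι → ℂ, ∃ P : MvPolynomial ι ℂ,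
    P.totalDegree ≤ L ∧ ∀ w : ι → ℂ, (F : (ι ⊕ ι → ℂ) → ℂ) (Sum.elim z w) =
      MvPolynomial.eval w P) → F ∈ Vn ι (L + 1) := by
  have key : ∀ (F : Ent (ι ⊕ ι)) (z : ι → ℂ) (P : MvPolynomial ι ℂ),
      (∀ w : ι → ℂ, (F : (ι ⊕ ι → ℂ) → ℂ) (Sum.elim z w) = MvPolynomial.eval w P) → ∀ i w,
        ((dR ι).D i F : (ι ⊕ ι → ℂ) → ℂ) (Sum.elim z w) =
          MvPolynomial.eval w (MvPolynomial.pderiv i P) := by
    classical
    intro F z P hP i w
    have h1 := line F (Sum.elim z w) (vd i)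
    have h2 : (fun t : ℂ => (F : (ι ⊕ ι → ℂ) → ℂ) (Sum.elim z w + t • vd i)) =
        fun t : ℂ => MvPolynomial.eval (w + t • (Pi.single i 1 : ι → ℂ)) P := by
      funext t
      rw [← hP]
      refine congrArg (F : (ι ⊕ ι → ℂ) → ℂ) ?_
      funext x
      rcases x with x | x
      · change z x + t * 0 = z x
        rw [mul_zero, add_zero]
      · change w x + t * _ = w x + t * _
        congr 2
    rw [h2] at h1
    exact h1.unique (deriv_eval P w i)
  induction L with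
  | zero =>
    intro F hF b hb
    obtain ⟨i, b', rfl, hb'⟩ := exists_single hb
    rw [CD.pw_succ']
    have h1 : (dR ι).D i F = 0 := by
      refine Subtype.ext (funext fun z => ?_)
      obtain ⟨P, hP, hPe⟩ := hF (fun i => z (Sum.inl i))
      have h2 := key F _ P hPe i (fun i => z (Sum.inr i))
      rw [tdeg_zero hP, map_zero] at h2
      have h3 : z = Sum.elim (fun i => z (Sum.inl i)) (fun i => z (Sum.inr i)) := by
        funext x
        rcases x with x | x <;> rfl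
      rw [h3]
      exact h2
    rw [h1, map_zero]
  | succ L ih =>
    intro F hF b hb
    obtain ⟨i, b', rfl, hb'⟩ := exists_single hb
    rw [CD.pw_succ']
    refine ih ((dR ι).D i F) (fun z => ?_) b' hb'
    obtain ⟨P, hP, hPe⟩ := hF z
    exact ⟨MvPolynomial.pderiv i P, tdeg_pderiv hP i, key F z P hPe i⟩

/-- A function without vector variables. -/
theorem vn_one {F : Ent (ι ⊕ ι)} (hF : F ∈ Vn ι 1) (z w : ι → ℂ) :
    (F : (ι ⊕ ι → ℂ) → ℂ) (Sum.elim z w) = (F : (ι ⊕ ι → ℂ) → ℂ) (Sum.elim z 0) := by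
  classical
  have h1 : ∀ (i : ι) (x : ι ⊕ ι → ℂ), fderiv ℂ (F : (ι ⊕ ι → ℂ) → ℂ) x (vd i) = 0 := by
    intro i x
    have h2 := hF (Finsupp.single i 1) (Finsupp.degree_single _ _)
    have h3 : (Finsupp.single i 1 : ι →₀ ℕ) = 0 + Finsupp.single i 1 := (zero_add _).symm
    rw [h3, CD.pw_succ, CD.pw_zero] at h2
    exact congrFun (congrArg Subtype.val h2) x
  have h2 : ∀ v : ι → ℂ, dE (Sum.elim 0 v : ι ⊕ ι → ℂ) F = 0 := by
    intro v
    refine Subtype.ext (funext fun x => ?_)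
    change fderiv ℂ (F : (ι ⊕ ι → ℂ) → ℂ) x (Sum.elim 0 v) = 0
    have h3 : (Sum.elim 0 v : ι ⊕ ι → ℂ) = ∑ i, v i • vd i := by
      funext y
      rw [Finset.sum_apply]
      rcases y with y | y
      · rw [Sum.elim_inl, Finset.sum_eq_zero]
        · rfl
        · intro i _
          change v i * 0 = 0
          rw [mul_zero]
      · rw [Sum.elim_inr, Finset.sum_eq_single y]
        · change v y = v y * _
          rw [vd, Sum.elim_inr, Pi.single_eq_same, mul_one]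
        · intro i _ hi
          change v i * _ = 0
          rw [vd, Sum.elim_inr, Pi.single_eq_of_ne (Ne.symm hi), mul_zero]
        · intro h
          exact absurd (Finset.mem_univ y) h
    rw [h3, map_sum]
    refine Finset.sum_eq_zero fun i _ => ?_
    rw [map_smul, h1, smul_zero]
  -- the function is constant along the segment
  have hd : Differentiable ℂ fun t : ℂ => (F : (ι ⊕ ι → ℂ) → ℂ)
      (Sum.elim z 0 + t • (Sum.elim 0 w : ι ⊕ ι → ℂ)) :=
    F.2.comp ((differentiable_id.smul_const _).const_add _)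
  have h3 : ∀ t : ℂ, deriv (fun t : ℂ => (F : (ι ⊕ ι → ℂ) → ℂ)
      (Sum.elim z 0 + t • (Sum.elim 0 w : ι ⊕ ι → ℂ))) t = 0 := by
    intro t
    have h4 := ((F.2 (Sum.elim z 0 + t • (Sum.elim 0 w : ι ⊕ ι → ℂ))).hasFDerivAt).comp_hasDerivAt t
      (((hasDerivAt_id t).smul_const (Sum.elim 0 w : ι ⊕ ι → ℂ)).const_add
        (Sum.elim z 0 : ι ⊕ ι → ℂ))
    rw [one_smul] at h4
    refine h4.deriv.trans ?_
    exact congrFun (congrArg Subtype.val (h2 w)) _
  have h4 := is_const_of_deriv_eq_zero hd h3 1 0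
  simp only [one_smul, zero_smul, add_zero] at h4
  have h5 : (Sum.elim z 0 : ι ⊕ ι → ℂ) + (Sum.elim 0 w : ι ⊕ ι → ℂ) = Sum.elim z w := by
    funext x
    rcases x with x | x
    · exact add_zero _
    · exact zero_add _
  rw [h5] at h4
  exact h4

variable (γ : A →+ (ι → ℂ)) (l : A →+ ((ι → ℂ) →ₗ[ℂ] ℂ)) (c : A → ℂ)
  (σ : (ι → ℂ) →ₗ[ℝ] (ι → ℂ))

/-- The quasi-periodic functions. -/
def QS (k : ℕ) : Submodule ℂ (Ent (ι ⊕ ι)) where
  carrier := {F | ∀ a z, (F : (ι ⊕ ι → ℂ) → ℂ) (z + Sum.elim (γ a) (σ (γ a))) =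
    Complex.exp (k * (l a (fun i => z (Sum.inl i)) + c a)) * (F : (ι ⊕ ι → ℂ) → ℂ) z}
  add_mem' := by
    intro F G hF hG a z
    change (F : (ι ⊕ ι → ℂ) → ℂ) _ + (G : (ι ⊕ ι → ℂ) → ℂ) _ =
      _ * ((F : (ι ⊕ ι → ℂ) → ℂ) z + (G : (ι ⊕ ι → ℂ) → ℂ) z)
    rw [hF a z, hG a z]
    ring
  zero_mem' := by
    intro a z
    change (0 : ℂ) = _ * 0
    rw [mul_zero]
  smul_mem' := by
    intro t F hF a z
    change t * (F : (ι ⊕ ι → ℂ) → ℂ) _ = _ * (t * (F : (ι ⊕ ι → ℂ) → ℂ) z)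
    rw [hF a z]
    ring

theorem qs_dE {k : ℕ} {F : Ent (ι ⊕ ι)} (hF : F ∈ QS γ l c σ k) {v : ι ⊕ ι → ℂ}
    (hv : ∀ i, v (Sum.inl i) = 0) : dE v F ∈ QS γ l c σ k := by
  intro a z
  have h1 := line F (z + Sum.elim (γ a) (σ (γ a))) v
  have h2 : (fun t : ℂ => (F : (ι ⊕ ι → ℂ) → ℂ) (z + Sum.elim (γ a) (σ (γ a)) + t • v)) =
      fun t : ℂ => Complex.exp (k * (l a (fun i => z (Sum.inl i)) + c a)) *
        (F : (ι ⊕ ι → ℂ) → ℂ) (z + t • v) := by
    funext t
    have h3 : z + Sum.elim (γ a) (σ (γ a)) + t • v = (z + t • v) + Sum.elim (γ a) (σ (γ a)) := by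
      abel
    rw [h3, hF a (z + t • v)]
    have h4 : (fun i => (z + t • v) (Sum.inl i)) = fun i => z (Sum.inl i) := by
      funext i
      change z (Sum.inl i) + t * v (Sum.inl i) = z (Sum.inl i)
      rw [hv, mul_zero, add_zero]
    rw [h4]
  rw [h2] at h1
  exact h1.unique ((line F z v).const_mul _)

theorem qs_pw {k : ℕ} {F : Ent (ι ⊕ ι)} (hF : F ∈ QS γ l c σ k) (n : ℕ) :
    ∀ b : ι →₀ ℕ, b.degree = n → (dR ι).pw b F ∈ QS γ l c σ k := by
  induction n with
  | zero =>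
    intro b hb
    rw [Finsupp.degree_eq_zero_iff] at hb
    rw [hb, CD.pw_zero]
    exact hF
  | succ n ih =>
    intro b hb
    obtain ⟨i, b', rfl, hb'⟩ := exists_single hb
    rw [CD.pw_succ]
    exact qs_dE γ l c σ (ih b' hb') fun _ => rfl

/-- Restriction to the abelian variables. -/
def rst (ι : Type) [Fintype ι] : Ent (ι ⊕ ι) →ₗ[ℂ] Ent ι where
  toFun F := ⟨fun z => (F : (ι ⊕ ι → ℂ) → ℂ) (Sum.elim z 0), by
    refine F.2.comp ?_
    refine differentiable_pi.2 ?_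
    rintro (i | i)
    · exact differentiable_apply i
    · exact differentiable_const _⟩
  map_add' _ _ := rfl
  map_smul' _ _ := rfl

theorem dim_one {k : ℕ} [Module.Finite ℂ (Pool.Agent.Helper63.LT.ThS γ l c k)] :
    Module.Finite ℂ (QS γ l c σ k ⊓ Vn ι 1 : Submodule ℂ (Ent (ι ⊕ ι))) ∧
      Module.finrank ℂ (QS γ l c σ k ⊓ Vn ι 1 : Submodule ℂ (Ent (ι ⊕ ι))) ≤
        Module.finrank ℂ (Pool.Agent.Helper63.LT.ThS γ l c k) := by
  let j : (QS γ l c σ k ⊓ Vn ι 1 : Submodule ℂ (Ent (ι ⊕ ι))) →ₗ[ℂ]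
      Pool.Agent.Helper63.LT.ThS γ l c k :=
    ((rst ι).comp (QS γ l c σ k ⊓ Vn ι 1 : Submodule ℂ (Ent (ι ⊕ ι))).subtype).codRestrict _ (by
      rintro ⟨F, hF, hF'⟩
      rw [Pool.Agent.Helper63.LT.mem_ThS]
      intro a z
      change (F : (ι ⊕ ι → ℂ) → ℂ) (Sum.elim (z + γ a) 0) =
        Complex.exp (k * (l a z + c a)) * (F : (ι ⊕ ι → ℂ) → ℂ) (Sum.elim z 0)
      have h1 := hF a (Sum.elim z (-σ (γ a)))
      have h2 : (Sum.elim z (-σ (γ a)) + Sum.elim (γ a) (σ (γ a)) : ι ⊕ ι → ℂ) =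
          Sum.elim (z + γ a) 0 := by
        funext x
        rcases x with x | x
        · rfl
        · change -σ (γ a) x + σ (γ a) x = 0
          rw [neg_add_cancel]
      rw [h2, vn_one hF' z (-σ (γ a))] at h1
      exact h1)
  have hj : Function.Injective j := by
    intro F G h
    have h1 : ∀ z, ((F : Ent (ι ⊕ ι)) : (ι ⊕ ι → ℂ) → ℂ) (Sum.elim z 0) =
        ((G : Ent (ι ⊕ ι)) : (ι ⊕ ι → ℂ) → ℂ) (Sum.elim z 0) := fun z =>
      congrFun (congrArg (fun t : Pool.Agent.Helper63.LT.ThS γ l c k =>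
        ((t : Ent ι) : (ι → ℂ) → ℂ)) h) z
    refine Subtype.ext (Subtype.ext (funext fun z => ?_))
    have h3 : z = Sum.elim (fun i => z (Sum.inl i)) (fun i => z (Sum.inr i)) := by
      funext x
      rcases x with x | x <;> rfl
    rw [h3, vn_one F.2.2, vn_one G.2.2, h1]
  exact dim_inj (QS γ l c σ k ⊓ Vn ι 1 : Submodule ℂ (Ent (ι ⊕ ι)))
    (Pool.Agent.Helper63.LT.ThS γ l c k) j hj

theorem dim_vn {k : ℕ} [Module.Finite ℂ (Pool.Agent.Helper63.LT.ThS γ l c k)] (n : ℕ) :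
    Module.Finite ℂ (QS γ l c σ k ⊓ Vn ι n : Submodule ℂ (Ent (ι ⊕ ι))) ∧
      Module.finrank ℂ (QS γ l c σ k ⊓ Vn ι n : Submodule ℂ (Ent (ι ⊕ ι))) ≤
        n ^ Fintype.card ι * Module.finrank ℂ (Pool.Agent.Helper63.LT.ThS γ l c k) := by
  classical
  suffices h : Module.Finite ℂ (QS γ l c σ k ⊓ Vn ι n : Submodule ℂ (Ent (ι ⊕ ι))) ∧
      Module.finrank ℂ (QS γ l c σ k ⊓ Vn ι n : Submodule ℂ (Ent (ι ⊕ ι))) ≤
        (∑ j ∈ range n, ((univ : Finset ι).finsuppAntidiag j).card) *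
          Module.finrank ℂ (Pool.Agent.Helper63.LT.ThS γ l c k) by
    refine ⟨h.1, h.2.trans (Nat.mul_le_mul_right _ ?_)⟩
    convert card_deg ι n
  induction n with
  | zero =>
    have h0 : (QS γ l c σ k ⊓ Vn ι 0 : Submodule ℂ (Ent (ι ⊕ ι))) = ⊥ := by
      rw [Submodule.eq_bot_iff]
      rintro F ⟨_, hF⟩
      exact vn_zero hF
    rw [h0]
    refine ⟨inferInstance, ?_⟩
    rw [finrank_bot]
    exact Nat.zero_le _
  | succ n ih =>
    obtain ⟨ih1, ih2⟩ := ih
    obtain ⟨h1, h2⟩ := dim_one γ l c σ (k := k)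
    have h3 := dim_step (QS γ l c σ k ⊓ Vn ι n) (QS γ l c σ k ⊓ Vn ι (n + 1))
      (QS γ l c σ k ⊓ Vn ι 1) (κ := {b // b ∈ (univ : Finset ι).finsuppAntidiag n})
      (fun b => (dR ι).pw b.1) (by
        rintro ⟨b, hb⟩ F ⟨hF, hF'⟩
        rw [mem_finsuppAntidiag] at hb
        have hb' : b.degree = n := by
          rw [Finsupp.degree_eq_sum]
          exact hb.1
        refine ⟨qs_pw γ l c σ hF n b hb', ?_⟩
        intro b1 hb1
        rw [← CD.pw_add]
        refine hF' _ ?_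
        rw [map_add, hb1, hb', add_comm])
      (by
        rintro F ⟨hF, hF'⟩ h
        refine ⟨hF, fun b hb => h ⟨b, ?_⟩⟩
        rw [mem_finsuppAntidiag]
        refine ⟨?_, Finset.subset_univ _⟩
        rw [Finsupp.degree_eq_sum] at hb
        exact hb)
    refine ⟨h3.1, h3.2.trans ?_⟩
    rw [Finset.sum_range_succ, add_mul, Fintype.card_coe]
    exact Nat.add_le_add ih2 (Nat.mul_le_mul_left _ h2)

/-- The dimension of a space of theta functions of the vector extension. -/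
theorem dim_gen {k : ℕ} [Module.Finite ℂ (Pool.Agent.Helper63.LT.ThS γ l c k)] (L : ℕ)
    (M : Submodule ℂ (Ent (ι ⊕ ι)))
    (hM : ∀ F ∈ M, Theta2 γ l c σ k L (F : (ι ⊕ ι → ℂ) → ℂ)) :
    Module.Finite ℂ M ∧ Module.finrank ℂ M ≤
      (L + 1) ^ Fintype.card ι * Module.finrank ℂ (Pool.Agent.Helper63.LT.ThS γ l c k) := by
  obtain ⟨h1, h2⟩ := dim_vn γ l c σ (k := k) (L + 1)
  have h3 : M ≤ QS γ l c σ k ⊓ Vn ι (L + 1) := fun F hF =>
    ⟨(hM F hF).2.1, poly_vn L F (hM F hF).2.2⟩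
  exact ⟨Submodule.finiteDimensional_of_le h3, (Submodule.finrank_mono h3).trans h2⟩

end vert

variable {ι A : Type} [Fintype ι] [AddCommGroup A] {γ : A →+ (ι → ℂ)}
  {l : A →+ ((ι → ℂ) →ₗ[ℂ] ℂ)} {c : A → ℂ}

/-- The dimension of the spaces of theta functions of the vector extension. -/
theorem dim2_nat (hb : ∀ p, ∃ F, Theta γ l c 1 F ∧ F p ≠ 0)
    (hc : ∃ R : ℝ, ∀ z, ∃ a, ‖z - γ a‖ ≤ R) (σ : (ι → ℂ) →ₗ[ℝ] (ι → ℂ)) :
    ∃ C : ℕ, ∀ (k L : ℕ) (M : Submodule ℂ (Ent (ι ⊕ ι))),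
      (∀ F ∈ M, Theta2 γ l c σ k L (F : (ι ⊕ ι → ℂ) → ℂ)) →
      Module.Finite ℂ M ∧ Module.finrank ℂ M ≤
        C * ((k + 1) ^ Fintype.card ι * (L + 1) ^ Fintype.card ι) := by
  obtain ⟨C, h⟩ := dim_nat hb hc
  refine ⟨C, fun k L M hM => ?_⟩
  obtain ⟨h1, h2⟩ := h k
  obtain ⟨h3, h4⟩ := dim_gen γ l c σ L M hM
  refine ⟨h3, h4.trans ?_⟩
  calc _ ≤ (L + 1) ^ Fintype.card ι * (C * (k + 1) ^ Fintype.card ι) := Nat.mul_le_mul_left _ h2
    _ = _ := by ring

/-- The dimension of the spaces of theta functions of the second kind of the vector extension. -/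
theorem dim2_two (hb : ∀ p, ∃ F, Theta γ l c 1 F ∧ F p ≠ 0)
    (hc : ∃ R : ℝ, ∀ z, ∃ a, ‖z - γ a‖ ≤ R) (σ : (ι → ℂ) →ₗ[ℝ] (ι → ℂ)) :
    ∃ C : ℕ, ∀ (k L : ℕ) (M : Submodule ℂ (Ent (ι ⊕ ι))),
      (∀ F ∈ M, Theta2 γ l (cc c) σ (2 * k) L (F : (ι ⊕ ι → ℂ) → ℂ)) →
      Module.Finite ℂ M ∧ Module.finrank ℂ M ≤
        C * ((k + 1) ^ Fintype.card ι * (L + 1) ^ Fintype.card ι) := by
  obtain ⟨C, h⟩ := dim_two hb hc
  refine ⟨C, fun k L M hM => ?_⟩
  obtain ⟨h1, h2⟩ := h k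
  obtain ⟨h3, h4⟩ := dim_gen γ l (cc c) σ L M hM
  refine ⟨h3, h4.trans ?_⟩
  calc _ ≤ (L + 1) ^ Fintype.card ι * (C * (k + 1) ^ Fintype.card ι) := Nat.mul_le_mul_left _ h2
    _ = _ := by ring

end

end Pool.Agent.Helper94.LU
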