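import Pool.Agent.Helper63.LU.Df
import Pool.Agent.Helper35.LZ.Zp

/-!
PROJECT LU (LT2, MP_274814_nt), block Z2: growth of the theta functions of the vector extension, and their
order of vanishing at `0`.
-/

namespace Pool.Agent.Helper94.LU

open Filter Topology Pool.Agent.Helper34.LT Pool.Agent.Helper63.LT Pool.Agent.Helper63.LU
  Pool.Agent.Helper35.LZ

noncomputable section

/-- The growth of a polynomial in one variable. -/
theorem bern_one {p : Polynomial ℂ} {L : ℕ} (hp : p.natDegree ≤ L) {M : ℝ}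
    (hM : ∀ t : ℂ, ‖t‖ ≤ 1 → ‖p.eval t‖ ≤ M) {R : ℝ} (hR : 1 ≤ R) :
    ‖p.eval (R : ℂ)‖ ≤ R ^ L * M := by
  have hR0 : 0 < R := by linarith
  have key : ∀ t : ℂ, t ≠ 0 → (p.reflect L).eval t⁻¹ * t ^ L = p.eval t := by
    intro t ht
    have := invertibleOfNonzero ht
    have h := Polynomial.eval₂_reflect_mul_pow (RingHom.id ℂ) t L p hp
    rw [invOf_eq_inv] at h
    exact h
  have h1 : ‖(p.reflect L).eval ((R : ℂ)⁻¹)‖ ≤ M := by
    refine Complex.norm_le_of_forall_mem_frontier_norm_le (U := Metric.ball 0 1)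
      (f := fun t => (p.reflect L).eval t)
      Metric.isBounded_ball (p.reflect L).differentiable.diffContOnCl ?_ ?_
    · intro z hz
      rw [frontier_ball _ one_ne_zero, mem_sphere_zero_iff_norm] at hz
      have hz1 : z ≠ 0 := by
        rintro rfl
        rw [norm_zero] at hz
        exact zero_ne_one hz
      have h2 := key z⁻¹ (inv_ne_zero hz1)
      rw [inv_inv] at h2
      have h3 : ‖(p.reflect L).eval z‖ = ‖p.eval z⁻¹‖ := by
        rw [← h2, norm_mul, norm_pow, norm_inv, hz, inv_one, one_pow, mul_one]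
      change ‖(p.reflect L).eval z‖ ≤ M
      rw [h3]
      exact hM _ (by rw [norm_inv, hz, inv_one])
    · rw [closure_ball _ one_ne_zero, mem_closedBall_zero_iff, norm_inv, Complex.norm_real,
        Real.norm_eq_abs, abs_of_pos hR0]
      exact inv_le_one_of_one_le₀ hR
  rw [← key R (by exact_mod_cast hR0.ne'), norm_mul, norm_pow, Complex.norm_real,
    Real.norm_eq_abs, abs_of_pos hR0, mul_comm]
  gcongr

/-- Restriction of a polynomial to a line. -/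
theorem eval_line {ι : Type} (P : MvPolynomial ι ℂ) (v : ι → ℂ) (t : ℂ) :
    (MvPolynomial.aeval (fun i => Polynomial.C (v i) * Polynomial.X) P).eval t =
      MvPolynomial.eval (t • v) P := by
  induction P using MvPolynomial.induction_on with
  | C a =>
    rw [MvPolynomial.aeval_C, MvPolynomial.eval_C, Polynomial.algebraMap_apply,
      Algebra.algebraMap_self, RingHom.id_apply, Polynomial.eval_C]
  | add p q hp hq => rw [map_add, map_add, Polynomial.eval_add, hp, hq]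
  | mul_X p i hp =>
    rw [map_mul, map_mul, Polynomial.eval_mul, hp, MvPolynomial.aeval_X, MvPolynomial.eval_X,
      Polynomial.eval_mul, Polynomial.eval_C, Polynomial.eval_X, Pi.smul_apply, smul_eq_mul,
      mul_comm t]

/-- The growth of a polynomial in several variables. -/
theorem bern {ι : Type} [Fintype ι] {P : MvPolynomial ι ℂ} {L : ℕ} (hP : P.totalDegree ≤ L) {M : ℝ}
    (hM : ∀ w : ι → ℂ, ‖w‖ ≤ 1 → ‖MvPolynomial.eval w P‖ ≤ M) {R : ℝ} (hR : 1 ≤ R) {w : ι → ℂ}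
    (hw : ‖w‖ ≤ R) : ‖MvPolynomial.eval w P‖ ≤ R ^ L * M := by
  have hR0 : 0 < R := by linarith
  have hRc : (R : ℂ) ≠ 0 := by exact_mod_cast hR0.ne'
  let v : ι → ℂ := (R : ℂ)⁻¹ • w
  have hp : (MvPolynomial.aeval (fun i => Polynomial.C (v i) * Polynomial.X) P).natDegree ≤ L := by
    have h := MvPolynomial.aeval_natDegree_le P hP (fun i => Polynomial.C (v i) * Polynomial.X)
      (n := 1) (fun i => (Polynomial.natDegree_C_mul_le _ _).trans Polynomial.natDegree_X_le)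
    rwa [mul_one] at h
  have hv : ‖v‖ ≤ 1 := by
    rw [norm_smul, norm_inv, Complex.norm_real, Real.norm_eq_abs, abs_of_pos hR0, inv_mul_le_iff₀ hR0,
      mul_one]
    exact hw
  have h := bern_one hp (M := M) (fun t ht => by
    rw [eval_line]
    refine hM _ ?_
    rw [norm_smul]
    exact mul_le_one₀ ht (norm_nonneg _) hv) hR
  rw [eval_line, smul_smul, mul_inv_cancel₀ hRc, one_smul] at h
  exact h

variable {ι A : Type} [Fintype ι] [AddCommGroup A] {γ : A →+ (ι → ℂ)}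
  {l : A →+ ((ι → ℂ) →ₗ[ℂ] ℂ)} {c : A → ℂ}

theorem norm_elim (x y : ι → ℂ) {r : ℝ} (hx : ‖x‖ ≤ r) (hy : ‖y‖ ≤ r) :
    ‖(Sum.elim x y : ι ⊕ ι → ℂ)‖ ≤ r := by
  rw [pi_norm_le_iff_of_nonneg ((norm_nonneg _).trans hx)]
  rintro (i | i)
  · exact (norm_le_pi_norm x i).trans hx
  · exact (norm_le_pi_norm y i).trans hy

theorem norm_l (z : ι ⊕ ι → ℂ) : ‖fun i => z (Sum.inl i)‖ ≤ ‖z‖ := by
  rw [pi_norm_le_iff_of_nonneg (norm_nonneg _)]
  exact fun i => norm_le_pi_norm z _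

theorem norm_r (z : ι ⊕ ι → ℂ) : ‖fun i => z (Sum.inr i)‖ ≤ ‖z‖ := by
  rw [pi_norm_le_iff_of_nonneg (norm_nonneg _)]
  exact fun i => norm_le_pi_norm z _

/-- Growth. -/
theorem growth2 (hb : ∀ p, ∃ F, Theta γ l c 1 F ∧ F p ≠ 0)
    (hc : ∃ R : ℝ, ∀ z, ∃ a, ‖z - γ a‖ ≤ R) (σ : (ι → ℂ) →ₗ[ℝ] (ι → ℂ)) :
    ∃ C R₀ : ℝ, 0 ≤ C ∧ 0 ≤ R₀ ∧ ∀ (k L : ℕ) (F : (ι ⊕ ι → ℂ) → ℂ), Theta2 γ l c σ k L F →
      ∀ z, ∃ w, ‖w‖ ≤ R₀ ∧ ‖F z‖ ≤ Real.exp (C * ((k : ℝ) + L) * (1 + ‖z‖) ^ 2) * ‖F w‖ := by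
  obtain ⟨C, R, hC, hR, h⟩ := mu_growth hb hc
  obtain ⟨s, hs0, hs⟩ : ∃ s : ℝ, 0 ≤ s ∧ ∀ x, ‖σ x‖ ≤ s * ‖x‖ :=
    ⟨‖LinearMap.toContinuousLinearMap σ‖, norm_nonneg _,
      fun x => (LinearMap.toContinuousLinearMap σ).le_opNorm x⟩
  refine ⟨C + (1 + s + s * R), max R 1, by positivity, le_max_of_le_left hR, ?_⟩
  intro k L F hF z
  set z1 : ι → ℂ := fun i => z (Sum.inl i) with hz1
  set z2 : ι → ℂ := fun i => z (Sum.inr i) with hz2
  have hn := norm_nonneg z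
  have n1 : ‖z1‖ ≤ ‖z‖ := norm_l z
  have n2 : ‖z2‖ ≤ ‖z‖ := norm_r z
  obtain ⟨a, ha, hmu⟩ := h z1
  have hz' : z - Sum.elim (γ a) (σ (γ a)) = Sum.elim (z1 - γ a) (z2 - σ (γ a)) := by
    funext x
    rcases x with i | i <;> rfl
  have hper := hF.2.1 a (z - Sum.elim (γ a) (σ (γ a)))
  rw [sub_add_cancel, hz'] at hper
  have hl : (fun i => (Sum.elim (z1 - γ a) (z2 - σ (γ a)) : ι ⊕ ι → ℂ) (Sum.inl i)) = z1 - γ a := rfl
  rw [hl] at hper
  obtain ⟨P, hP, hPe⟩ := hF.2.2 (z1 - γ a)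
  obtain ⟨w₀, hw₀, hmax⟩ := (isCompact_closedBall (0 : ι → ℂ) 1).exists_isMaxOn
    (f := fun w => ‖MvPolynomial.eval w P‖)
    ⟨0, by rw [mem_closedBall_zero_iff, norm_zero]; exact zero_le_one⟩
    (by
      refine Continuous.continuousOn (Continuous.norm ?_)
      exact MvPolynomial.continuous_eval P)
  rw [mem_closedBall_zero_iff] at hw₀
  refine ⟨Sum.elim (z1 - γ a) w₀,
    norm_elim _ _ (ha.trans (le_max_left _ _)) (hw₀.trans (le_max_right _ _)), ?_⟩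
  have hγ : ‖γ a‖ ≤ ‖z‖ + R := by
    have h1 : γ a = z1 - (z1 - γ a) := by abel
    rw [h1]
    refine (norm_sub_le _ _).trans ?_
    linarith
  have hw : ‖z2 - σ (γ a)‖ ≤ 1 + ‖z‖ + s * (‖z‖ + R) := by
    refine (norm_sub_le _ _).trans ?_
    have h1 := (hs (γ a)).trans (mul_le_mul_of_nonneg_left hγ hs0)
    linarith
  have hR1 : (1 : ℝ) ≤ 1 + ‖z‖ + s * (‖z‖ + R) := by
    have : 0 ≤ s * (‖z‖ + R) := by positivity
    linarith
  have h1 := bern hP (M := ‖MvPolynomial.eval w₀ P‖) (fun w hw =>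
    hmax (mem_closedBall_zero_iff.2 hw)) hR1 hw
  rw [← hPe, ← hPe] at h1
  have h2 : (1 + ‖z‖ + s * (‖z‖ + R)) ^ L ≤
      Real.exp ((1 + s + s * R) * L * (1 + ‖z‖) ^ 2) := by
    have h3 : 1 + ‖z‖ + s * (‖z‖ + R) ≤ (1 + s + s * R) * (1 + ‖z‖) ^ 2 := by
      have h4 : (1 + ‖z‖) ≤ (1 + ‖z‖) ^ 2 := by nlinarith
      have h5 : 1 + ‖z‖ + s * (‖z‖ + R) ≤ (1 + s + s * R) * (1 + ‖z‖) := by
        have : 0 ≤ s * R * ‖z‖ := by positivity
        nlinarith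
      exact h5.trans (mul_le_mul_of_nonneg_left h4 (by positivity))
    calc (1 + ‖z‖ + s * (‖z‖ + R)) ^ L ≤ (Real.exp ((1 + s + s * R) * (1 + ‖z‖) ^ 2)) ^ L := by
          refine pow_le_pow_left₀ (by linarith) (h3.trans ?_) L
          have := Real.add_one_le_exp ((1 + s + s * R) * (1 + ‖z‖) ^ 2)
          linarith
      _ = _ := by
          rw [← Real.exp_nat_mul]
          congr 1
          ring
  have h3 : ‖Complex.exp (k * (l a (z1 - γ a) + c a))‖ ≤ Real.exp (C * k * (1 + ‖z‖) ^ 2) := by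
    rw [Complex.norm_exp]
    refine Real.exp_le_exp.2 ?_
    have h4 : ((k : ℂ) * (l a (z1 - γ a) + c a)).re = k * mu l c a (z1 - γ a) := by
      rw [mu, ← Complex.ofReal_natCast, Complex.re_ofReal_mul]
    rw [h4]
    calc (k : ℝ) * mu l c a (z1 - γ a) ≤ k * (C * (1 + ‖z1‖) ^ 2) := by gcongr
      _ ≤ k * (C * (1 + ‖z‖) ^ 2) := by gcongr
      _ = _ := by ring
  rw [hper, norm_mul]
  calc ‖Complex.exp (k * (l a (z1 - γ a) + c a))‖ * ‖F (Sum.elim (z1 - γ a) (z2 - σ (γ a)))‖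
      ≤ Real.exp (C * k * (1 + ‖z‖) ^ 2) * (Real.exp ((1 + s + s * R) * L * (1 + ‖z‖) ^ 2) *
          ‖F (Sum.elim (z1 - γ a) w₀)‖) := by
        refine mul_le_mul h3 (h1.trans ?_) (norm_nonneg _) (Real.exp_pos _).le
        gcongr
    _ = Real.exp (C * k * (1 + ‖z‖) ^ 2 + (1 + s + s * R) * L * (1 + ‖z‖) ^ 2) *
          ‖F (Sum.elim (z1 - γ a) w₀)‖ := by rw [Real.exp_add]; ring
    _ ≤ _ := by
        refine mul_le_mul_of_nonneg_right (Real.exp_le_exp.2 ?_) (norm_nonneg _)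
        have e1 : 0 ≤ C * (L : ℝ) * (1 + ‖z‖) ^ 2 := by positivity
        have e2 : 0 ≤ (1 + s + s * R) * (k : ℝ) * (1 + ‖z‖) ^ 2 := by positivity
        nlinarith

/-- The order of vanishing at `0`. -/
theorem schwarz2 (hb : ∀ p, ∃ F, Theta γ l c 1 F ∧ F p ≠ 0)
    (hc : ∃ R : ℝ, ∀ z, ∃ a, ‖z - γ a‖ ≤ R) (σ : (ι → ℂ) →ₗ[ℝ] (ι → ℂ)) :
    ∃ C : ℝ, 0 ≤ C ∧ ∀ (k L : ℕ) (F : (ι ⊕ ι → ℂ) → ℂ), Theta2 γ l c σ k L F →
      (∃ z, F z ≠ 0) → ∀ N : ℕ,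
      (∀ v : ι ⊕ ι → ℂ, ∀ j < N, iteratedDeriv j (fun s : ℂ => F (s • v)) 0 = 0) →
        (N : ℝ) ≤ C * ((k : ℝ) + L) := by
  obtain ⟨C, R₀, hC, hR₀, h⟩ := growth2 hb hc σ
  refine ⟨C * (1 + Real.exp 1 * R₀) ^ 2, by positivity, fun k L F hF hne N hN => ?_⟩
  have hcont : Continuous F := hF.1.continuous
  obtain ⟨w₀, hw₀, hmax⟩ := (isCompact_closedBall (0 : ι ⊕ ι → ℂ) R₀).exists_isMaxOn
    ⟨0, by rw [mem_closedBall_zero_iff, norm_zero]; exact hR₀⟩ hcont.norm.continuousOn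
  rw [mem_closedBall_zero_iff] at hw₀
  have hmax' : ∀ w, ‖w‖ ≤ R₀ → ‖F w‖ ≤ ‖F w₀‖ := fun w hw =>
    hmax (mem_closedBall_zero_iff.2 hw)
  have hpos : 0 < ‖F w₀‖ := by
    obtain ⟨z, hz⟩ := hne
    obtain ⟨w, hw, h1⟩ := h k L F hF z
    have h2 : 0 < ‖F z‖ := norm_pos_iff.2 hz
    have h3 : 0 < ‖F w‖ := by
      by_contra hcon
      have h4 : ‖F w‖ = 0 := le_antisymm (not_lt.1 hcon) (norm_nonneg _)
      rw [h4, mul_zero] at h1
      linarith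
    exact h3.trans_le (hmax' w hw)
  have hg : Differentiable ℂ fun s : ℂ => F (s • w₀) :=
    hF.1.comp (differentiable_id.smul_const w₀)
  have h1 := schwarz_one hg (hN w₀) (ρ := Real.exp 1)
    (M := Real.exp (C * ((k : ℝ) + L) * (1 + Real.exp 1 * R₀) ^ 2) * ‖F w₀‖)
    (Real.one_le_exp zero_le_one) (fun s hs => by
      obtain ⟨w, hw, h2⟩ := h k L F hF (s • w₀)
      refine h2.trans ?_
      have h3 : ‖s • w₀‖ ≤ Real.exp 1 * R₀ := by
        rw [norm_smul, hs]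
        gcongr
      have h4 := hmax' w hw
      gcongr)
  rw [one_smul, mul_comm] at h1
  have h2 := le_of_mul_le_mul_right h1 hpos
  rw [← Real.exp_nat_mul, mul_one, Real.exp_le_exp] at h2
  calc (N : ℝ) ≤ C * ((k : ℝ) + L) * (1 + Real.exp 1 * R₀) ^ 2 := h2
    _ = _ := by ring

/-- The order of vanishing at `0`, with a natural constant. -/
theorem schwarz2_nat (hb : ∀ p, ∃ F, Theta γ l c 1 F ∧ F p ≠ 0)
    (hc : ∃ R : ℝ, ∀ z, ∃ a, ‖z - γ a‖ ≤ R) (σ : (ι → ℂ) →ₗ[ℝ] (ι → ℂ)) :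
    ∃ C : ℕ, ∀ (k L : ℕ) (F : Ent (ι ⊕ ι)), Theta2 γ l c σ k L (F : (ι ⊕ ι → ℂ) → ℂ) → F ≠ 0 →
      ∀ (b : Module.Basis (ι ⊕ ι) ℂ (ι ⊕ ι → ℂ)) (N : ℕ),
        (∀ α : ι ⊕ ι →₀ ℕ, α.degree ≤ N → evE 0 ((cE b).pw α F) = 0) → N + 1 ≤ C * (k + L) := by
  obtain ⟨C, hC, h⟩ := schwarz2 hb hc σ
  refine ⟨⌈C⌉₊, fun k L F hF hne b N hN => ?_⟩
  have h1 : ∃ z, (F : (ι ⊕ ι → ℂ) → ℂ) z ≠ 0 := by
    by_contra hcon
    push Not at hcon
    exact hne (Subtype.ext (funext hcon))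
  have h2 := h k L F hF h1 (N + 1) (fun v j hj => by
    have h3 := iter_line F 0 v j 0
    simp only [zero_add, zero_smul] at h3
    rw [h3]
    exact coeff_van b F N hN v j (by omega))
  have h3 : ((N + 1 : ℕ) : ℝ) ≤ ((⌈C⌉₊ * (k + L) : ℕ) : ℝ) := by
    rw [Nat.cast_mul, Nat.cast_add k L]
    exact h2.trans (mul_le_mul_of_nonneg_right (Nat.le_ceil C) (by positivity))
  exact_mod_cast h3

end

end Pool.Agent.Helper94.LU
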